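import Pool.Agent.H77.PM.Targets

/-!
# Row (MEA): measurability of locally constant families of codes (helper7)
-/

set_option autoImplicit false

open Set Filter Topology

namespace Pool.Agent.H7.PM

open Pool.Agent.H77.PM

/-- a function on the Cantor space which is locally constant in the sense of cylinders is
measurable. -/
theorem mea_loc {X : Type} [MeasurableSpace X] (g : (ℕ → Bool) → X)
    (h : ∀ u, ∃ N : ℕ, ∀ v, (∀ j < N, v j = u j) → g v = g u) : Measurable g := by
  intro A _
  have : IsOpen (g ⁻¹' A) := by
    rw [isOpen_iff_mem_nhds]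
    intro u hu
    obtain ⟨N, hN⟩ := h u
    have h1 : {v : ℕ → Bool | ∀ j < N, v j = u j} ∈ 𝓝 u := by
      have h2 : {v : ℕ → Bool | ∀ j < N, v j = u j} = ⋂ j ∈ Finset.range N, {v | v j = u j} := by
        ext v
        simp
      rw [h2]
      refine (Filter.biInter_finset_mem _).2 fun j _ => ?_
      have h3 : IsOpen ((fun v : ℕ → Bool => v j) ⁻¹' {u j}) :=
        (isOpen_discrete _).preimage (continuous_apply j)
      exact h3.mem_nhds rfl
    refine Filter.mem_of_superset h1 fun v hv => ?_
    show g v ∈ A
    rw [hN v hv]
    exact hu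
  exact this.measurableSet

theorem pf_MEA : T_MEA := by
  intro ι ar Z _ _ S q hq
  have key : ∀ {X : Type} [MeasurableSpace X] (n : ℕ) (a : Fin n → ℕ) (F : (Fin n → S.M) → X),
      Measurable fun u => F fun k => q u (a k) := by
    intro X _ n a F
    refine mea_loc _ fun u => ?_
    choose N hN using fun i => hq i u
    refine ⟨Finset.univ.sup fun k => N (a k), fun v hv => ?_⟩
    congr 1
    funext k
    exact hN (a k) v fun j hj => hv j (lt_of_lt_of_le hj
      (Finset.le_sup (f := fun k => N (a k)) (Finset.mem_univ k)))
  refine Measurable.prodMk ?_ ?_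
  · refine measurable_pi_iff.2 fun i => measurable_pi_iff.2 fun j => ?_
    exact key 2 ![i, j] fun x => dist (x 0) (x 1)
  · refine measurable_pi_iff.2 fun i => measurable_pi_iff.2 fun a => ?_
    exact key (ar i) a (S.f i)

end Pool.Agent.H7.PM
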